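import Pool.Agent.Helper58.VF.APP

/-!
# Project VF, packet SET: a finitely generated subgroup one of whose cosets has infinitely many
generators
-/

set_option autoImplicit false

namespace Pool.Agent.Helper27.VF.SET

open Pool.Agent.Helper27.VF Pool.Agent.Helper58.VF Filter

universe u

/-- **SET.** The setting for a subgroup `A` of `Γ`. -/
def SetStmt : Prop := ∀ (Γ : Type u) [Group Γ] (S : Set Γ) (A : Subgroup Γ) (f : Γ),
  Subgroup.closure S = ⊤ → (1 : Γ) ∉ S → A.FG → {s | s ∈ S ∧ s * f⁻¹ ∈ A}.Infinite →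
  ∃ (W : Type u) (_ : MulAction A W) (G G₀ : SimpleGraph W) (w : W) (p : Ultrafilter W)
    (i : W → Γ), Stg A G G₀ w p ∧ Function.Injective i ∧
      ∀ x y, G.Adj x y → (SimpleGraph.fromRel fun a b : Γ => a⁻¹ * b ∈ S).Adj (i x) (i y)

theorem exists_P {V : Type u} (G : SimpleGraph V) (hG : G.Connected) (o : V) (F : Set V)
    (hF : F.Finite) : ∃ P : Set V, P.Finite ∧ F ⊆ P ∧ o ∈ P ∧
      ∀ x ∈ P, ∃ q : G.Walk o x, ∀ z ∈ q.support, z ∈ P := by
  classical
  choose q hq using fun x : V => (⟨(hG.preconnected o x).some, trivial⟩ : ∃ _ : G.Walk o x, True)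
  refine ⟨insert o (⋃ x ∈ F, {z | z ∈ (q x).support}), ?_, ?_, ?_, ?_⟩
  · refine Set.Finite.insert _ (Set.Finite.biUnion hF fun x _ => ?_)
    exact List.finite_toSet _
  · intro x hx
    exact Set.mem_insert_of_mem _ (Set.mem_biUnion hx (q x).end_mem_support)
  · exact Set.mem_insert _ _
  · intro x hx
    rcases hx with hx | hx
    · subst hx
      refine ⟨SimpleGraph.Walk.nil, ?_⟩
      intro z hz
      rw [SimpleGraph.Walk.support_nil, List.mem_singleton] at hz
      rw [hz]; exact Set.mem_insert _ _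
    · obtain ⟨y, hy, hxy⟩ := Set.mem_iUnion₂.1 hx
      refine ⟨(q y).takeUntil x hxy, ?_⟩
      intro z hz
      exact Set.mem_insert_of_mem _ (Set.mem_biUnion hy
        ((q y).support_takeUntil_subset_support hxy hz))

theorem set : SetStmt.{u} := by
  classical
  intro Γ _ S A f hS h1 hA hinf
  obtain ⟨T, hT⟩ := hA
  have hconn : (cay S).Connected := cay_conn hS
  obtain ⟨P, hP1, hP2, hP3, hP4⟩ := exists_P (cay S) hconn (1 : Γ) ((T : Set Γ) ∪ {f})
    (T.finite_toSet.union (Set.finite_singleton f))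
  have hfP : f ∈ P := hP2 (Or.inr rfl)
  let W : Type u := {u : Γ // ∃ a ∈ A, a⁻¹ * u ∈ P}
  let act : MulAction A W :=
    { smul := fun a u => ⟨(a : Γ) * u.1, by
        obtain ⟨b, hb, hu⟩ := u.2
        refine ⟨(a : Γ) * b, A.mul_mem a.2 hb, ?_⟩
        rwa [mul_inv_rev, mul_assoc, inv_mul_cancel_left]⟩
      one_smul := fun u => Subtype.ext (one_mul _)
      mul_smul := fun a b u => Subtype.ext (mul_assoc _ _ _) }
  have hsm : ∀ (a : A) (u : W), ((a • u : W) : Γ) = (a : Γ) * (u : Γ) := fun a u => rfl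
  have hPW : ∀ x ∈ P, ∃ a ∈ A, a⁻¹ * x ∈ P := fun x hx => ⟨1, A.one_mem, by simpa using hx⟩
  let G : SimpleGraph W := (cay S).comap Subtype.val
  let G₀ : SimpleGraph W :=
    { Adj := fun u v => (cay S).Adj u.1 v.1 ∧ ∃ a ∈ A, a⁻¹ * u.1 ∈ P ∧ a⁻¹ * v.1 ∈ P
      symm := ⟨fun u v h => ⟨h.1.symm, by
        obtain ⟨a, ha, h2, h3⟩ := h.2
        exact ⟨a, ha, h3, h2⟩⟩⟩
      loopless := ⟨fun u h => h.1.ne rfl⟩ }
  have hG : ∀ u v : W, G.Adj u v ↔ (cay S).Adj u.1 v.1 := fun u v => Iff.rfl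
  have hG₀ : ∀ u v : W, G₀.Adj u v ↔
    (cay S).Adj u.1 v.1 ∧ ∃ a ∈ A, a⁻¹ * u.1 ∈ P ∧ a⁻¹ * v.1 ∈ P := fun u v => Iff.rfl
  have hinv₀ : ∀ (a : A) (x y : W), G₀.Adj x y → G₀.Adj (a • x) (a • y) := by
    intro a x y h
    rw [hG₀] at h ⊢
    obtain ⟨h2, b, hb, h3, h4⟩ := h
    refine ⟨cay_mul _ h2, (a : Γ) * b, A.mul_mem a.2 hb, ?_, ?_⟩
    · rw [hsm, mul_inv_rev, mul_assoc, inv_mul_cancel_left]; exact h3
    · rw [hsm, mul_inv_rev, mul_assoc, inv_mul_cancel_left]; exact h4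
  let w : W := ⟨1, hPW 1 hP3⟩
  have hreachInv : ∀ (a : A) (x y : W), G₀.Reachable x y → G₀.Reachable (a • x) (a • y) := by
    intro a x y h
    let φ : G₀ →g G₀ := ⟨fun x => a • x, fun {x y} h => hinv₀ a x y h⟩
    exact h.map φ
  -- walks in `P` give walks in `G₀`
  have hwalk : ∀ (x y : Γ) (q : (cay S).Walk x y), (∀ z ∈ q.support, z ∈ P) →
      ∀ (hx : ∃ a ∈ A, a⁻¹ * x ∈ P) (hy : ∃ a ∈ A, a⁻¹ * y ∈ P),
        G₀.Reachable (⟨x, hx⟩ : W) ⟨y, hy⟩ := by
    intro x y q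
    induction q with
    | nil => intro _ hx hy; exact SimpleGraph.Reachable.refl _
    | @cons x z y h q ih =>
      intro hq hx hy
      rw [SimpleGraph.Walk.support_cons] at hq
      have hxP : x ∈ P := hq x List.mem_cons_self
      have hzP : z ∈ P := hq z (List.mem_cons_of_mem _ q.start_mem_support)
      have h5 := ih (fun v hv => hq v (List.mem_cons_of_mem _ hv)) (hPW z hzP) hy
      refine SimpleGraph.Reachable.trans (SimpleGraph.Adj.reachable ?_) h5
      rw [hG₀]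
      exact ⟨h, 1, A.one_mem, by simpa using hxP, by simpa using hzP⟩
  have hbase : ∀ x (hx : x ∈ P), G₀.Reachable w ⟨x, hPW x hx⟩ := by
    intro x hx
    obtain ⟨q, hq⟩ := hP4 x hx
    exact hwalk 1 x q hq _ _
  have hA1 : ∀ g ∈ Subgroup.closure (T : Set Γ), ∀ (hg : g ∈ A),
      G₀.Reachable w ((⟨g, hg⟩ : A) • w) := by
    intro g hg
    induction hg using Subgroup.closure_induction with
    | mem x hx =>
      intro hg
      have hxP : x ∈ P := hP2 (Or.inl hx)
      have h5 := hbase x hxP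
      have h6 : ((⟨x, hg⟩ : A) • w) = (⟨x, hPW x hxP⟩ : W) := Subtype.ext (by rw [hsm]; simp [w])
      rw [h6]; exact h5
    | one =>
      intro hg
      have h6 : ((⟨1, hg⟩ : A) • w) = w := Subtype.ext (by rw [hsm]; simp [w])
      rw [h6]
    | mul x y hx hy ihx ihy =>
      intro hg
      have hxA : x ∈ A := by rw [← hT]; exact hx
      have hyA : y ∈ A := by rw [← hT]; exact hy
      have h5 := hreachInv ⟨x, hxA⟩ _ _ (ihy hyA)
      have h6 : ((⟨x * y, hg⟩ : A) • w) = (⟨x, hxA⟩ : A) • ((⟨y, hyA⟩ : A) • w) :=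
        Subtype.ext (by rw [hsm, hsm, hsm]; simp [mul_assoc])
      rw [h6]
      exact (ihx hxA).trans h5
    | inv x hx ihx =>
      intro hg
      have hxA : x ∈ A := by rw [← hT]; exact hx
      have h5 := hreachInv ⟨x⁻¹, hg⟩ _ _ (ihx hxA)
      have h6 : (⟨x⁻¹, hg⟩ : A) • ((⟨x, hxA⟩ : A) • w) = w :=
        Subtype.ext (by rw [hsm, hsm]; simp [w])
      rw [h6] at h5
      exact h5.symm
  have hconn₀ : G₀.Connected := by
    have : Nonempty W := ⟨w⟩
    have hall : ∀ u : W, G₀.Reachable w u := by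
      intro u
      obtain ⟨a, ha, hu⟩ := u.2
      have h5 := hA1 a (by rw [hT]; exact ha) ha
      have h6 := hreachInv ⟨a, ha⟩ _ _ (hbase _ hu)
      have h7 : (⟨a, ha⟩ : A) • (⟨a⁻¹ * u.1, hPW _ hu⟩ : W) = u :=
        Subtype.ext (by rw [hsm]; simp)
      rw [h7] at h6
      exact h5.trans h6
    exact SimpleGraph.Connected.mk fun x y => (hall x).symm.trans (hall y)
  have hN : {x : W | G.Adj w x}.Infinite := by
    intro hfin
    apply hinf
    refine (hfin.image (fun x : W => (x : Γ))).subset ?_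
    rintro s ⟨hs, hsA⟩
    refine ⟨⟨s, s * f⁻¹, hsA, by simpa using hfP⟩, ?_, rfl⟩
    rw [Set.mem_ofPred_eq, hG, cay_adj]
    refine ⟨?_, Or.inl ?_⟩
    · intro h; exact h1 (by rw [show (1 : Γ) = s from h]; exact hs)
    · simpa [w] using hs
  have : (cofinite ⊓ 𝓟 {x : W | G.Adj w x} : Filter W).NeBot := hN.cofinite_inf_principal_neBot
  obtain ⟨p, hp⟩ : ∃ p : Ultrafilter W, (p : Filter W) ≤ cofinite ⊓ 𝓟 {x : W | G.Adj w x} :=
    ⟨Ultrafilter.of _, Ultrafilter.of_le _⟩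
  have hpc : (p : Filter W) ≤ cofinite := hp.trans inf_le_left
  have hpS : {x : W | G.Adj w x} ∈ p := (hp.trans inf_le_right) (mem_principal_self _)
  refine ⟨W, act, G, G₀, w, p, fun x => (x : Γ), ?_, Subtype.val_injective, ?_⟩
  · refine
      { free := ?_
        fin := ?_
        le := ?_
        inv := ?_
        inv₀ := hinv₀
        conn := hconn₀
        lf := ?_
        nonp := ?_
        nb := hpS }
    · intro a x h
      have h5 : (a : Γ) * (x : Γ) = (x : Γ) := by rw [← hsm, h]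
      exact Subtype.ext (by simpa using h5)
    · refine ⟨{u : W | (u : Γ) ∈ P}, hP1.preimage Subtype.val_injective.injOn, ?_⟩
      intro u
      obtain ⟨a, ha, hu⟩ := u.2
      exact ⟨⟨a, ha⟩, ⟨a⁻¹ * u.1, hPW _ hu⟩, hu, Subtype.ext (by rw [hsm]; simp)⟩
    · intro x y h
      exact ((hG₀ x y).1 h).1
    · intro a x y h
      exact cay_mul _ h
    · intro x
      have h5 : (Set.image2 (fun b c : Γ => (x : Γ) * b⁻¹ * c) P P).Finite := hP1.image2 _ hP1
      refine (h5.preimage (f := fun u : W => (u : Γ)) Subtype.val_injective.injOn).subset ?_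
      intro y hy
      obtain ⟨-, a, -, h6, h7⟩ := (hG₀ x y).1 hy
      refine ⟨a⁻¹ * x.1, h6, a⁻¹ * y.1, h7, ?_⟩
      simp
    · intro F hF hFp
      have h5 : Fᶜ ∈ p := hpc (by rw [mem_cofinite, compl_compl]; exact hF)
      have h6 := Filter.inter_mem hFp h5
      rw [Set.inter_compl_self] at h6
      exact p.neBot.ne (Filter.empty_mem_iff_bot.1 h6)
  · intro x y h
    exact h

end Pool.Agent.Helper27.VF.SET
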