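import Pool.Agent.Helper38.VF.Goals2
import Pool.Agent.Helper27.VF.SET

/-!
# Project VTF, packet AP3: the coset form
-/

set_option autoImplicit false

namespace Pool.Agent.Helper27.VF.SET

open Pool.Agent.Helper27.VF Pool.Agent.Helper38.VF Pool.Agent.Helper58.VF Filter

universe u

/-- **AP3.** Some coset of a finitely generated virtually torsion-free subgroup `D` contains
infinitely many generators. -/
def Ap3Stmt : Prop := ∀ (Γ : Type u) [Group Γ] (S : Set Γ),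
  Subgroup.closure S = ⊤ → (∀ s ∈ S, s⁻¹ ∈ S) → (1 : Γ) ∉ S → ∀ (D : Subgroup Γ), Group.FG D →
  (∃ A : Subgroup D, A.FiniteIndex ∧ ∀ a ∈ A, ∀ n : ℕ, 0 < n → a ^ n = 1 → a = 1) →
  ∀ b : Γ, {s | s ∈ S ∧ s * b⁻¹ ∈ D}.Infinite →
  ∃ φ : ℕ → Set Γ,
    (∀ i, ((SimpleGraph.fromRel fun a b : Γ => a⁻¹ * b ∈ S).induce (φ i)).Connected) ∧
    (∀ i j, i ≠ j → Disjoint (φ i) (φ j)) ∧
    ∀ i j, i ≠ j → ∃ a ∈ φ i, ∃ b ∈ φ j,
      (SimpleGraph.fromRel fun a b : Γ => a⁻¹ * b ∈ S).Adj a b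

/-- A subgroup of finite index: one of its cosets has infinitely many elements. -/
theorem coset {Γ : Type u} [Group Γ] (S : Set Γ) (D : Subgroup Γ) (A : Subgroup D)
    (hA : A.FiniteIndex) (b : Γ) (h : {s | s ∈ S ∧ s * b⁻¹ ∈ D}.Infinite) :
    ∃ f : Γ, {s | s ∈ S ∧ s * f⁻¹ ∈ A.map D.subtype}.Infinite := by
  classical
  have := hA
  have hfin : Finite (D ⧸ A) := Subgroup.finite_quotient_of_finiteIndex
  have hinf : Infinite {s | s ∈ S ∧ s * b⁻¹ ∈ D} := h.to_subtype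
  let F : {s | s ∈ S ∧ s * b⁻¹ ∈ D} → D ⧸ A := fun s => ((⟨s.1 * b⁻¹, s.2.2⟩ : D)⁻¹ : D)
  obtain ⟨q, hq⟩ := Finite.exists_infinite_fiber F
  obtain ⟨g, rfl⟩ := QuotientGroup.mk_surjective q
  refine ⟨(g : Γ)⁻¹ * b, ?_⟩
  intro hf
  have hq' : (F ⁻¹' {(g : D ⧸ A)}).Infinite := Set.infinite_coe_iff.1 hq
  apply hq'
  refine (hf.preimage (f := fun s : {s | s ∈ S ∧ s * b⁻¹ ∈ D} => (s : Γ))
    Subtype.val_injective.injOn).subset ?_
  intro s hs
  have h2 : (((⟨s.1 * b⁻¹, s.2.2⟩ : D)⁻¹ : D) : D ⧸ A) = (g : D ⧸ A) := hs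
  have h3 : (⟨s.1 * b⁻¹, s.2.2⟩ : D)⁻¹⁻¹ * g ∈ A := QuotientGroup.eq.1 h2
  rw [inv_inv] at h3
  refine ⟨s.2.1, ?_⟩
  refine ⟨_, h3, ?_⟩
  simp [mul_assoc]

/-- From the setting to the complete minor. -/
theorem minor_of_con (hK : KndStmt.{u}) {Γ : Type u} [Group Γ] (S : Set Γ) {A W : Type u} [Group A]
    [MulAction A W] {G G₀ : SimpleGraph W} {w : W} {p : Ultrafilter W} (hst : Stg A G G₀ w p)
    (hCon : Con A G p) (i : W → Γ) (hi : Function.Injective i)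
    (hG : ∀ x y, G.Adj x y → (SimpleGraph.fromRel fun a b : Γ => a⁻¹ * b ∈ S).Adj (i x) (i y)) :
    ∃ φ : ℕ → Set Γ,
      (∀ i, ((SimpleGraph.fromRel fun a b : Γ => a⁻¹ * b ∈ S).induce (φ i)).Connected) ∧
      (∀ i j, i ≠ j → Disjoint (φ i) (φ j)) ∧
      ∀ i j, i ≠ j → ∃ a ∈ φ i, ∃ b ∈ φ j,
        (SimpleGraph.fromRel fun a b : Γ => a⁻¹ * b ∈ S).Adj a b := by
  obtain ⟨Z, hZ1, hZ2⟩ := hCon
  have hinj : Function.Injective fun a : A => a • w := by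
    intro a b hab
    have h : (b⁻¹ * a) • w = w := by
      rw [mul_smul, show a • w = b • w from hab, inv_smul_smul]
    have := hst.free _ _ h
    exact (inv_mul_eq_one.1 this).symm
  obtain ⟨φ, h1, h2, h3⟩ := hK W G ((fun a : A => a • w) '' Z) (hZ1.image hinj.injOn) (by
    rintro _ ⟨a, ha, rfl⟩ _ ⟨b, hb, rfl⟩ c hc ⟨hx, hy⟩
    exact hZ2 a ha b hb c hc ⟨fact1 hst hc hx, fact1' hst hc hy⟩)
  refine ⟨fun n => i '' (φ n), ?_, ?_, ?_⟩
  · intro n
    let f : G.induce (φ n) →g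
        (SimpleGraph.fromRel fun a b : Γ => a⁻¹ * b ∈ S).induce (i '' (φ n)) :=
      { toFun := fun x => ⟨i x, (x : W), x.2, rfl⟩
        map_rel' := by
          intro a b hab
          exact hG _ _ hab }
    refine (h1 n).map f ?_
    rintro ⟨_, y, hy, rfl⟩
    exact ⟨⟨y, hy⟩, rfl⟩
  · intro n m hnm
    rw [Set.disjoint_left]
    rintro _ ⟨a, ha, rfl⟩ ⟨b, hb, hab⟩
    have hba : b = a := hi hab
    subst hba
    exact Set.disjoint_left.1 (h2 n m hnm) ha hb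
  · intro n m hnm
    obtain ⟨a, ha, b, hb, hab⟩ := h3 n m hnm
    exact ⟨i a, ⟨a, ha, rfl⟩, i b, ⟨b, hb, rfl⟩, hG _ _ hab⟩

theorem ap3 (hI : In2Stmt.{u}) (hR : Rk2Stmt.{u}) (hK : KndStmt.{u}) : Ap3Stmt.{u} := by
  classical
  intro Γ _ S hS _ h1 D hD hA b hinf
  obtain ⟨A, hAf, htf⟩ := hA
  have := hAf
  have := hD
  have hAG : Group.FG A := Subgroup.fg_of_index_ne_zero A
  obtain ⟨f, hf⟩ := coset S D A hAf b hinf
  have hBfg : (A.map D.subtype).FG := by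
    obtain ⟨T, hT⟩ : A.FG := (Group.fg_iff_subgroup_fg A).1 hAG
    refine ⟨T.image D.subtype, ?_⟩
    rw [Finset.coe_image, ← MonoidHom.map_closure, hT]
  obtain ⟨W, act, G, G₀, w, p, i, hst, hi, hG⟩ := set Γ S (A.map D.subtype) f hS h1 hBfg hf
  have hTF : TF (A.map D.subtype) := by
    rintro ⟨a, ha⟩ n hn h
    obtain ⟨c, hc, rfl⟩ := ha
    have h2 : ((c : Γ)) ^ n = 1 := congrArg Subtype.val h
    have h3 : c ^ n = 1 := Subtype.ext (by rw [Subgroup.coe_pow, h2]; rfl)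
    have h4 := htf c hc n hn h3
    subst h4
    exact Subtype.ext (by simp)
  have hBG : Group.FG (A.map D.subtype) := (Group.fg_iff_subgroup_fg _).2 hBfg
  obtain ⟨T, hT⟩ := Group.fg_iff'.1 hBG
  obtain ⟨F, -, hF⟩ := hT
  have hCon : Con (A.map D.subtype) G p := by
    by_contra hc
    have hD := hI (F.card + 1) _ W G G₀ w p hst hTF hc
    let e : Fin F.card ≃ F := F.equivFin.symm
    have hcl : Subgroup.closure
        (Set.range fun i : Fin F.card => ((e i : F) : A.map D.subtype)) = ⊤ := by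
      have hr : (Set.range fun i : Fin F.card => ((e i : F) : A.map D.subtype)) =
          (F : Set (A.map D.subtype)) := by
        ext x
        constructor
        · rintro ⟨i, rfl⟩
          exact (e i).2
        · intro hx
          exact ⟨e.symm ⟨x, hx⟩, by simp⟩
      rw [hr, hF]
    have := hR _ F.card (F.card + 1) (fun i => ((e i : F) : A.map D.subtype)) hcl hTF hD
    omega
  exact minor_of_con hK S hst hCon i hi hG

end Pool.Agent.Helper27.VF.SET
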