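import Pool.Agent.Helper24.VF.FAC
import Pool.Agent.Helper71.VF.CHN
import Pool.Agent.Helper49.VF.LIM
import Pool.Agent.Helper14.VF.LOC
import Pool.Agent.Helper85.VF.PTH
import Pool.Agent.Helper23.VF.ORA
import Pool.Agent.Helper16.VF.ORB
import Pool.Agent.Helper3.VF.ORC
import Pool.Agent.Helper53.VF.FRD
import Pool.Agent.Helper3.VF.DER
import Pool.Agent.Helper96.VF.DRA
import Pool.Agent.Helper67.VF.RNK
import Pool.Agent.Helper66.VF.TOA
import Pool.Agent.Helper59.VF.TOB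
import Pool.Agent.Helper8.VF.TOC
import Pool.Agent.Helper76.VF.TOD
import Pool.Agent.Helper4.VF.TOE
import Pool.Agent.Helper39.VF.TOF
import Pool.Agent.Helper56.VF.IND
import Pool.Agent.Helper77.VF.KND
import Pool.Agent.Helper58.VF.APP

/-!
# Project VF: assembly
-/

set_option autoImplicit false

namespace Pool.Agent.Helper27.VF.Asm

universe u

theorem t_FAC : FacStmt.{u} := Pool.Agent.Helper24.VF.fac
theorem t_CHN : ChnStmt.{u} := Pool.Agent.Helper71.VF.chn t_FAC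
theorem t_LIM : LimStmt.{u} := Pool.Agent.Helper49.VF.lim
theorem t_LOC : LocStmt.{u} := Pool.Agent.Helper14.VF.loc t_FAC t_CHN t_LIM
theorem t_PTH : PthStmt.{u} := Pool.Agent.Helper85.VF.pth t_LOC
theorem t_ORA : OraStmt.{u} := Pool.Agent.Helper23.VF.ora t_PTH
theorem t_ORB : OrbStmt.{u} := Pool.Agent.Helper16.VF.orb t_ORA
theorem t_ORC : OrcStmt.{u} := Pool.Agent.Helper3.VF.orc t_ORA t_ORB
theorem t_FRD : FrdStmt.{u} := Pool.Agent.Helper53.VF.frd t_LOC t_ORC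
theorem t_DER : DerStmt.{u} := Pool.Agent.Helper3.VF.der
theorem t_DRA : DraStmt.{u} :=
  Pool.Agent.Helper96.VF.draPkt t_DER t_PTH t_ORA t_ORB t_ORC t_FRD
theorem t_RNK : RnkStmt.{u} := Pool.Agent.Helper67.VF.rnk
theorem t_TOA : ToaStmt.{u} := Pool.Agent.Helper66.VF.toa t_FAC t_ORB t_FRD
theorem t_TOB : TobStmt.{u} := Pool.Agent.Helper59.VF.tob t_LOC
theorem t_TOC : TocStmt.{u} := Pool.Agent.Helper8.VF.toc t_PTH t_TOA t_ORB t_FRD
theorem t_TOD : TodStmt.{u} := Pool.Agent.Helper76.VF.tod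
theorem t_TOE : ToeStmt.{u} := Pool.Agent.Helper4.VF.toe
theorem t_TOF : TofStmt.{u} := Pool.Agent.Helper39.VF.tof t_TOA t_TOB t_TOC t_TOD t_TOE
theorem t_IND : IndStmt.{u} := Pool.Agent.Helper56.VF.ind t_DRA t_RNK t_TOF t_ORB
theorem t_KND : KndStmt.{u} := Pool.Agent.Helper77.VF.knd
theorem t_APP : AppStmt.{u} := Pool.Agent.Helper58.VF.app t_IND t_KND

end Pool.Agent.Helper27.VF.Asm
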