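import Pool.Agent.Helper27.VF.Defs

set_option autoImplicit false

namespace Pool.Agent.Helper27.VF

universe u

variable {A W : Type u} [Group A] [MulAction A W] {G G₀ : SimpleGraph W} {w : W}
  {p : Ultrafilter W} {k : ℕ}

theorem inn_one {U : Set W} : Inn p (1 : A) U ↔ U ∈ p := by
  unfold Inn
  simp only [one_smul]
  rfl

theorem inn_mono {a : A} {U V : Set W} (h : U ⊆ V) (hU : Inn p a U) : Inn p a V :=
  Filter.mem_of_superset hU fun _ hx => h hx

theorem inn_inter {a : A} {U V : Set W} : Inn p a (U ∩ V) ↔ Inn p a U ∧ Inn p a V := by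
  unfold Inn
  exact Filter.inter_mem_iff

theorem inn_compl {a : A} {U : Set W} : Inn p a Uᶜ ↔ ¬ Inn p a U := by
  unfold Inn
  exact Ultrafilter.compl_mem_iff_notMem

theorem inn_union {a : A} {U V : Set W} : Inn p a (U ∪ V) ↔ Inn p a U ∨ Inn p a V := by
  unfold Inn
  exact Ultrafilter.union_mem_iff

theorem not_inn_finite (h : Stg A G G₀ w p) {a : A} {F : Set W} (hF : F.Finite) :
    ¬ Inn p a F := by
  refine h.nonp _ ?_
  have : {x | a • x ∈ F} = (fun x => a⁻¹ • x) '' F := by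
    ext x
    constructor
    · intro hx
      exact ⟨a • x, hx, by simp⟩
    · rintro ⟨y, hy, rfl⟩
      simpa using hy
  rw [this]
  exact hF.image _

theorem inn_infinite (h : Stg A G G₀ w p) {a : A} {U : Set W} (hU : Inn p a U) : U.Infinite :=
  fun hf => not_inn_finite h hf hU

theorem inn_nonempty (h : Stg A G G₀ w p) {a : A} {U : Set W} (hU : Inn p a U) : U.Nonempty :=
  (inn_infinite h hU).nonempty

theorem mem_sep {c : Set W × Set W} {x : W} : x ∈ sep c ↔ x ∉ c.1 ∧ x ∉ c.2 := by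
  unfold sep
  simp [not_or]

theorem inn_snd (h : Stg A G G₀ w p) {c : Set W × Set W} (hc : IsCut G c) {a : A} :
    Inn p a c.2 ↔ ¬ Inn p a c.1 := by
  constructor
  · intro h2 h1
    have := inn_nonempty h (inn_inter.2 ⟨h1, h2⟩)
    obtain ⟨x, hx1, hx2⟩ := this
    exact hc.disj x hx1 hx2
  · intro h1
    by_contra h2
    have h3 : Inn p a (c.1 ∪ c.2)ᶜ := by
      rw [inn_compl, inn_union]
      tauto
    exact not_inn_finite h hc.fin h3

/-- Fact 1. -/
theorem fact1 (h : Stg A G G₀ w p) {c : Set W × Set W} (hc : IsCut G c) {a : A}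
    (ha : a • w ∈ c.1) : Inn p a c.1 := by
  by_contra h1
  have h2 : Inn p a c.2 := (inn_snd h hc).2 h1
  obtain ⟨x, hx1, hx2⟩ := Ultrafilter.nonempty_of_mem (Filter.inter_mem h2 h.nb)
  exact hc.no _ ha _ hx1 (h.inv a _ _ hx2)

theorem IsCut.swap {c : Set W × Set W} (hc : IsCut G c) : IsCut G (c.2, c.1) where
  disj x h1 h2 := hc.disj x h2 h1
  fin := by
    have := hc.fin
    unfold sep at this ⊢
    rwa [Set.union_comm]
  no x hx y hy hxy := hc.no y hy x hx hxy.symm

theorem sep_swap (c : Set W × Set W) : sep (c.2, c.1) = sep c := by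
  unfold sep
  rw [Set.union_comm]

theorem fact1' (h : Stg A G G₀ w p) {c : Set W × Set W} (hc : IsCut G c) {a : A}
    (ha : a • w ∈ c.2) : Inn p a c.2 := fact1 h hc.swap ha

theorem SS.swap {c : Set W × Set W} (hc : c ∈ SS A G p k) : (c.2, c.1) ∈ SS A G p k := by
  obtain ⟨h1, h2, a, b, h3, h4⟩ := hc
  exact ⟨h1.swap, by rwa [sep_swap], b, a, h4, h3⟩

theorem tr_one (c : Set W × Set W) : tr (1 : A) c = c := by
  unfold tr
  simp

theorem tr_tr (a b : A) (c : Set W × Set W) : tr a (tr b c) = tr (a * b) c := by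
  unfold tr
  simp [mul_smul]

theorem inn_tr_fst {a b : A} {c : Set W × Set W} :
    Inn p b (tr a c).1 ↔ Inn p (a⁻¹ * b) c.1 := by
  unfold Inn tr
  simp [mul_smul]

theorem inn_tr_snd {a b : A} {c : Set W × Set W} :
    Inn p b (tr a c).2 ↔ Inn p (a⁻¹ * b) c.2 := by
  unfold Inn tr
  simp [mul_smul]

theorem sep_tr (a : A) (c : Set W × Set W) : sep (tr a c) = (fun x => a • x) '' sep c := by
  ext x
  constructor
  · intro hx
    refine ⟨a⁻¹ • x, ?_, by simp⟩
    rw [mem_sep] at hx ⊢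
    exact hx
  · rintro ⟨y, hy, rfl⟩
    rw [mem_sep] at hy ⊢
    unfold tr
    simpa using hy

theorem mem_sep_tr {a : A} {c : Set W × Set W} {x : W} :
    x ∈ sep (tr a c) ↔ a⁻¹ • x ∈ sep c := by
  rw [mem_sep, mem_sep]
  rfl

theorem IsCut.tr (h : Stg A G G₀ w p) {c : Set W × Set W} (hc : IsCut G c) (a : A) :
    IsCut G (tr a c) where
  disj x h1 h2 := hc.disj _ h1 h2
  fin := by
    rw [sep_tr]
    exact hc.fin.image _
  no x hx y hy hxy := hc.no _ hx _ hy (h.inv a⁻¹ _ _ hxy)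

theorem SS.tr (h : Stg A G G₀ w p) {c : Set W × Set W} (hc : c ∈ SS A G p k) (a : A) :
    tr a c ∈ SS A G p k := by
  obtain ⟨h1, h2, g, g', h3, h4⟩ := hc
  refine ⟨h1.tr h a, ?_, a * g, a * g', ?_, ?_⟩
  · rw [sep_tr, Set.ncard_image_of_injective _ (MulAction.injective a), h2]
  · rw [inn_tr_fst, inv_mul_cancel_left]
    exact h3
  · rw [inn_tr_snd, inv_mul_cancel_left]
    exact h4

/-- The corner cut. -/
def cor (c d : Set W × Set W) : Set W × Set W := (c.1 ∩ d.1, c.2 ∪ d.2)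

theorem cor_isCut {c d : Set W × Set W} (hc : IsCut G c) (hd : IsCut G d) :
    IsCut G (cor c d) where
  disj := by
    rintro x ⟨h1, h2⟩ (h3 | h3)
    · exact hc.disj x h1 h3
    · exact hd.disj x h2 h3
  fin := by
    refine (hc.fin.union hd.fin).subset ?_
    intro x hx
    rw [mem_sep] at hx
    rcases Classical.em (x ∈ sep c) with h | h
    · exact Or.inl h
    · right
      rw [mem_sep] at h ⊢
      unfold cor at hx
      simp only [Set.mem_inter_iff, Set.mem_union, not_and, not_or] at hx h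
      tauto
  no := by
    rintro x ⟨h1, h2⟩ y (h3 | h3) hxy
    · exact hc.no x h1 y h3 hxy
    · exact hd.no x h2 y h3 hxy

/-- The sizes of opposite corners. -/
theorem cor_card {c d : Set W × Set W} (hc : IsCut G c) (hd : IsCut G d) :
    (sep (cor c d)).ncard + (sep (cor (c.2, c.1) (d.2, d.1))).ncard ≤
      (sep c).ncard + (sep d).ncard := by
  have f1 := hc.fin
  have f2 := hd.fin
  have f3 : (sep (cor c d)).Finite := (cor_isCut hc hd).fin
  have f4 : (sep (cor (c.2, c.1) (d.2, d.1))).Finite := (cor_isCut hc.swap hd.swap).fin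
  have e1 := Set.ncard_union_add_ncard_inter (sep c) (sep d) f1 f2
  have e2 := Set.ncard_union_add_ncard_inter (sep (cor c d))
    (sep (cor (c.2, c.1) (d.2, d.1))) f3 f4
  rw [← e1, ← e2]
  have key : ∀ x, (x ∈ c.1 → x ∉ c.2) ∧ (x ∈ d.1 → x ∉ d.2) := fun x =>
    ⟨hc.disj x, hd.disj x⟩
  refine add_le_add (Set.ncard_le_ncard ?_ (f1.union f2)) (Set.ncard_le_ncard ?_
    (f1.inter_of_left _))
  · intro x hx
    have := key x
    simp only [Set.mem_union, mem_sep, cor, Set.mem_inter_iff, not_and, not_or] at hx ⊢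
    tauto
  · intro x hx
    have := key x
    simp only [Set.mem_union, mem_sep, cor, Set.mem_inter_iff, not_and, not_or] at hx ⊢
    tauto

/-- If both corners distinguish elements of `A`, they are in `SS`. -/
theorem corner {c d : Set W × Set W} (hk : Mn A G p k)
    (hc : c ∈ SS A G p k) (hd : d ∈ SS A G p k) {g h : A}
    (h1 : Inn p g (c.1 ∩ d.1)) (h2 : Inn p h (c.2 ∩ d.2)) :
    cor c d ∈ SS A G p k ∧ cor (c.2, c.1) (d.2, d.1) ∈ SS A G p k := by
  have hcc := hc.1
  have hdc := hd.1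
  have i1 : IsCut G (cor c d) := cor_isCut hcc hdc
  have i2 : IsCut G (cor (c.2, c.1) (d.2, d.1)) := cor_isCut hcc.swap hdc.swap
  have s1 : Dis p (cor c d) g h :=
    ⟨h1, inn_mono (fun x hx => Or.inl hx.1) h2⟩
  have s2 : Dis p (cor (c.2, c.1) (d.2, d.1)) h g :=
    ⟨h2, inn_mono (fun x hx => Or.inl hx.1) h1⟩
  have n1 := hk _ i1 _ _ s1
  have n2 := hk _ i2 _ _ s2
  have n3 := cor_card hcc hdc
  rw [hc.2.1, hd.2.1] at n3
  exact ⟨⟨i1, by omega, g, h, s1⟩, ⟨i2, by omega, h, g, s2⟩⟩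

end Pool.Agent.Helper27.VF
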