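import Pool.Agent.Helper96.VF.Goals

set_option autoImplicit false

namespace Pool.Agent.Helper27.VF

open Pool.Agent.Helper96.VF

theorem exists_rep (x : ℕ) (hx : x ≠ 0) :
    ∃ a b m : ℕ, Nat.Coprime m 6 ∧ x = 2 ^ a * 3 ^ b * m := by
  obtain ⟨a, m, hm, rfl⟩ := Nat.exists_eq_pow_mul_and_not_dvd hx 2 (by norm_num)
  have hm0 : m ≠ 0 := by
    rintro rfl
    exact hm (dvd_zero _)
  obtain ⟨b, k, hk, rfl⟩ := Nat.exists_eq_pow_mul_and_not_dvd hm0 3 (by norm_num)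
  refine ⟨a, b, k, ?_, by ring⟩
  have h2 : Nat.Coprime k 2 := by
    rw [Nat.coprime_comm, Nat.Prime.coprime_iff_not_dvd Nat.prime_two]
    intro h
    exact hm (Dvd.dvd.mul_left h _)
  have h3 : Nat.Coprime k 3 := by
    rw [Nat.coprime_comm, Nat.Prime.coprime_iff_not_dvd Nat.prime_three]
    exact hk
  have : Nat.Coprime k (2 * 3) := Nat.Coprime.mul_right h2 h3
  simpa using this

theorem gCLS (hUNQ : UNQ) : CLS := by
  intro n A hA
  rw [← Finset.card_sigma]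
  symm
  apply Finset.card_nbij (fun z : (_ : ℕ) × (ℕ × ℕ) => 2 ^ z.2.1 * 3 ^ z.2.2 * z.1)
  · intro z hz
    have hz' := Finset.mem_sigma.1 (Finset.mem_coe.1 hz)
    exact (Finset.mem_filter.1 hz'.2).2
  · intro z hz w hw h
    have hz' := Finset.mem_sigma.1 (Finset.mem_coe.1 hz)
    have hw' := Finset.mem_sigma.1 (Finset.mem_coe.1 hw)
    have hzc : Nat.Coprime z.1 6 := (Finset.mem_filter.1 hz'.1).2
    have hwc : Nat.Coprime w.1 6 := (Finset.mem_filter.1 hw'.1).2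
    obtain ⟨m, a, b⟩ := z
    obtain ⟨m', a', b'⟩ := w
    obtain ⟨rfl, rfl, rfl⟩ := hUNQ a b m a' b' m' hzc hwc h
    rfl
  · intro x hx
    have hx' : x ∈ A := Finset.mem_coe.1 hx
    have hxn := Finset.mem_Icc.1 (hA hx')
    obtain ⟨a, b, m, hm, rfl⟩ := exists_rep x (by omega)
    have hm1 : 1 ≤ m := by
      rcases Nat.eq_zero_or_pos m with rfl | h
      · simp at hxn
      · exact h
    have h2 : 1 ≤ 2 ^ a := Nat.one_le_two_pow
    have h3 : 1 ≤ 3 ^ b := Nat.one_le_pow _ _ (by norm_num)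
    have ha : a < 2 ^ a := Nat.lt_two_pow_self
    have hb : b < 3 ^ b := Nat.lt_pow_self (by norm_num)
    have h4 : m ≤ 2 ^ a * 3 ^ b * m := Nat.le_mul_of_pos_left m (by positivity)
    have h5 : 2 ^ a ≤ 2 ^ a * 3 ^ b * m := by
      calc 2 ^ a = 2 ^ a * 1 * 1 := by ring
        _ ≤ 2 ^ a * 3 ^ b * m := by gcongr
    have h6 : 3 ^ b ≤ 2 ^ a * 3 ^ b * m := by
      calc 3 ^ b = 1 * 3 ^ b * 1 := by ring
        _ ≤ 2 ^ a * 3 ^ b * m := by gcongr
    refine ⟨⟨m, (a, b)⟩, ?_, rfl⟩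
    rw [Finset.mem_coe, Finset.mem_sigma]
    refine ⟨?_, ?_⟩
    · unfold Cop
      rw [Finset.mem_filter, Finset.mem_Icc]
      exact ⟨⟨hm1, h4.trans hxn.2⟩, hm⟩
    · rw [Finset.mem_filter, Finset.mem_product, Finset.mem_range, Finset.mem_range]
      exact ⟨⟨by simp only; omega, by simp only; omega⟩, hx'⟩

end Pool.Agent.Helper27.VF
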