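import Mathlib

/-!
# Project VF: infinite-degree Cayley graphs of finitely generated virtually free groups

Setting: a group `A` acts freely and with finitely many orbits on `W`; `G₀ ≤ G` are `A`-invariant
graphs on `W`, `G₀` is connected and locally finite; `p` is a nonprincipal ultrafilter which contains
the neighbourhood of `w` in `G`.
-/

set_option autoImplicit false

namespace Pool.Agent.Helper27.VF

universe u

/-- `U` belongs to the translate `a p` of the ultrafilter `p`. -/
def Inn {A W : Type u} [Group A] [MulAction A W] (p : Ultrafilter W) (a : A) (U : Set W) : Prop :=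
  {x | a • x ∈ U} ∈ p

/-- The separator of a pair of sets. -/
def sep {W : Type u} (c : Set W × Set W) : Set W := (c.1 ∪ c.2)ᶜ

/-- A cut: disjoint sets without edges between them, with a finite separator. -/
structure IsCut {W : Type u} (G : SimpleGraph W) (c : Set W × Set W) : Prop where
  disj : ∀ x, x ∈ c.1 → x ∉ c.2
  fin : (sep c).Finite
  no : ∀ x ∈ c.1, ∀ y ∈ c.2, ¬ G.Adj x y

/-- The cut `c` distinguishes `a` and `b`. -/
def Dis {A W : Type u} [Group A] [MulAction A W] (p : Ultrafilter W) (c : Set W × Set W)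
    (a b : A) : Prop := Inn p a c.1 ∧ Inn p b c.2

/-- The translate `a c`. -/
def tr {A W : Type u} [Group A] [MulAction A W] (a : A) (c : Set W × Set W) : Set W × Set W :=
  ({x | a⁻¹ • x ∈ c.1}, {x | a⁻¹ • x ∈ c.2})

/-- The setting. -/
structure Stg (A : Type u) {W : Type u} [Group A] [MulAction A W] (G G₀ : SimpleGraph W) (w : W)
    (p : Ultrafilter W) : Prop where
  free : ∀ (a : A) (x : W), a • x = x → a = 1
  fin : ∃ F : Set W, F.Finite ∧ ∀ x : W, ∃ a : A, ∃ f ∈ F, a • f = x
  le : G₀ ≤ G
  inv : ∀ (a : A) (x y : W), G.Adj x y → G.Adj (a • x) (a • y)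
  inv₀ : ∀ (a : A) (x y : W), G₀.Adj x y → G₀.Adj (a • x) (a • y)
  conn : G₀.Connected
  lf : ∀ x, {y | G₀.Adj x y}.Finite
  nonp : ∀ F : Set W, F.Finite → F ∉ p
  nb : {x | G.Adj w x} ∈ p

/-- The cuts with separators of size `k` which distinguish two elements of `A`. -/
def SS (A : Type u) {W : Type u} [Group A] [MulAction A W] (G : SimpleGraph W)
    (p : Ultrafilter W) (k : ℕ) : Set (Set W × Set W) :=
  {c | IsCut G c ∧ (sep c).ncard = k ∧ ∃ a b : A, Dis p c a b}

/-- No cut with a smaller separator distinguishes two elements of `A`. -/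
def Mn (A : Type u) {W : Type u} [Group A] [MulAction A W] (G : SimpleGraph W)
    (p : Ultrafilter W) (k : ℕ) : Prop :=
  ∀ c, IsCut G c → ∀ a b : A, Dis p c a b → k ≤ (sep c).ncard

/-- The elements which are on the same sides of all cuts in `SS` as `1`, for all translates. -/
def BB (A : Type u) {W : Type u} [Group A] [MulAction A W] (G : SimpleGraph W)
    (p : Ultrafilter W) (k : ℕ) : Subgroup A where
  carrier := {g | ∀ h : A, ∀ c ∈ SS A G p k, (Inn p (h * g) c.1 ↔ Inn p h c.1)}
  one_mem' := by intro h c _; rw [mul_one]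
  mul_mem' := by
    intro g g' hg hg' h c hc
    rw [← mul_assoc, hg' (h * g) c hc, hg h c hc]
  inv_mem' := by
    intro g hg h c hc
    have := hg (h * g⁻¹) c hc
    rw [inv_mul_cancel_right] at this
    exact this.symm

/-- The order of the cuts. -/
def Lw {W : Type u} (c c' : Set W × Set W) : Prop := c.1 ⊆ c'.1 ∧ c'.2 ⊆ c.2

/-- The minimal cuts with `p` on the first side. -/
def DD (A : Type u) {W : Type u} [Group A] [MulAction A W] (G : SimpleGraph W)
    (p : Ultrafilter W) (k : ℕ) : Set (Set W × Set W) :=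
  {d | d ∈ SS A G p k ∧ Inn p (1 : A) d.1 ∧
    ∀ c ∈ SS A G p k, Inn p (1 : A) c.1 → Lw c d → c = d}

/-- The vertex set of the torso. -/
def Kp (A : Type u) {W : Type u} [Group A] [MulAction A W] (G : SimpleGraph W)
    (p : Ultrafilter W) (k : ℕ) : Set W :=
  {x | (∀ d ∈ DD A G p k, x ∉ d.2) ∨ ∃ d ∈ DD A G p k, x ∈ sep d}

/-- `z` can be reached from `x` through vertices outside `K` (`z = x` is allowed). -/
def Out {W : Type u} (G : SimpleGraph W) (K : Set W) (x z : W) : Prop :=
  Relation.ReflTransGen (fun a b => G.Adj a b ∧ b ∉ K) x z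

/-- The torso of `G` at `K`: two vertices are adjacent if they are joined by an edge or by a path
outside `K`. -/
def TG {W : Type u} (G : SimpleGraph W) (K : Set W) : SimpleGraph K :=
  SimpleGraph.fromRel fun x y : K => ∃ z, Out G K x z ∧ G.Adj z y

/-- Every component outside `K` has finitely many neighbours in `K`. -/
def Nar {W : Type u} (G : SimpleGraph W) (K : Set W) : Prop :=
  ∀ z, z ∉ K → {y | y ∈ K ∧ ∃ z', Out G K z z' ∧ G.Adj z' y}.Finite

/-- A derivation of the subgroup `B`. -/
def IsDerOn {A : Type*} [Group A] (B : Subgroup A) {M : Type*} [AddCommGroup M]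
    [DistribMulAction A M] (f : B → M) : Prop :=
  ∀ b b' : B, f (b * b') = f b + (b : A) • f b'

/-- A derivation. -/
def IsDer {A : Type*} [Group A] {M : Type*} [AddCommGroup M] [DistribMulAction A M]
    (f : A → M) : Prop := ∀ b b' : A, f (b * b') = f b + b • f b'

end Pool.Agent.Helper27.VF
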