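import Pool.Agent.Helper27.VF.Basic

/-!
# Project VF: the packets

`Basic.lean` has the lemmas on translates, Fact 1, swapping and corners.
-/

set_option autoImplicit false

namespace Pool.Agent.Helper27.VF

universe u v

/-- **FAC.** Facts on distances.

Proof. `G₀` is connected, `A`-invariant and has finitely many orbits of vertices: `R` is the maximum
of the distances from `w` to the representatives `f ∈ F`; balls are finite (induction). An infinite
`U` with finite boundary `∂` has infinitely many vertices outside the ball of radius `R + 1` around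
`∂`; for such an `x` there is `a` with `dist (a w) x ≤ R`, and the path from `x` to `a w` stays in `U`;
each `a w` is within `R` of finitely many `x`. -/
def FacStmt : Prop := ∀ (A W : Type u) [Group A] [MulAction A W] (G G₀ : SimpleGraph W) (w : W)
  (p : Ultrafilter W), Stg A G G₀ w p →
  (∃ R : ℕ, ∀ x : W, ∃ a : A, G₀.dist (a • w) x ≤ R) ∧
  (∀ (x : W) (n : ℕ), {y | G₀.dist x y ≤ n}.Finite) ∧
  ∀ U : Set W, U.Infinite → {x | x ∈ U ∧ ∃ y, y ∉ U ∧ G₀.Adj x y}.Finite →
    {a : A | a • w ∈ U}.Infinite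

/-- **CHN.** Points of `A w` close to each other on both sides. (May assume `FacStmt`.)

Proof. `c.1` and `c.2` are infinite (they contain a set of a nonprincipal ultrafilter, translated)
with finite `G₀`-boundary (neighbours of the finite separator), so contain points of `A w` (FAC).
Join them by a chain of points of `A w` with steps of `G₀`-distance `≤ 2 R + 1` (points of `A w` close
to the vertices of a `G₀`-path), without repetitions. Between the last point in `c.1` before the first
point in `c.2` and this one there are at most `k` points, all in the separator. So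
`c₀ = (k + 1) (2 R + 1)`. (Alternative without chains: if all pairs of points of `A w` in `c.1` and
`c.2` have distance `> c₀`, colour the vertices.) -/
def ChnStmt : Prop := ∀ (A W : Type u) [Group A] [MulAction A W] (G G₀ : SimpleGraph W) (w : W)
  (p : Ultrafilter W), Stg A G G₀ w p → ∀ k : ℕ, ∃ c₀ : ℕ, ∀ c, IsCut G c →
  (sep c).ncard ≤ k → ∀ a b : A, Dis p c a b →
    ∃ g h : A, g • w ∈ c.1 ∧ h • w ∈ c.2 ∧ G₀.dist (g • w) (h • w) ≤ c₀

/-- **LIM.** Limits of cuts.

Proof. Suppose there are infinitely many; take a nonprincipal ultrafilter `q` on the infinite set of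
these cuts and let `U∞ = {x | x ∈ c.1 for q-almost all c}`, `V∞` similarly with `c.2`. This is a cut:
the separator is the set of the `x` in `sep c` for `q`-almost all `c`, it has at most `k` elements
(`k + 1` elements would be in one `sep c`). `g w ∈ U∞`, `h w ∈ V∞`, so it distinguishes `g`, `h`
(Fact 1), so `k ≤ |sep|` by `Mn`; hence `sep c = sep∞` for `q`-almost all `c`, infinitely many. But for
one finite set `X` there are only finitely many cuts with separator `X`: `c.1` is a union of
`G₀`-components of the complement of `X`, and there are finitely many of these, as each has a vertex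
which is a neighbour of `X` (`G₀` connected, locally finite), or is everything. -/
def LimStmt : Prop := ∀ (A W : Type u) [Group A] [MulAction A W] (G G₀ : SimpleGraph W) (w : W)
  (p : Ultrafilter W), Stg A G G₀ w p → ∀ k : ℕ, Mn A G p k → ∀ g h : A,
  {c | c ∈ SS A G p k ∧ g • w ∈ c.1 ∧ h • w ∈ c.2}.Finite

/-- **LOC.** Local finiteness. (May assume `FacStmt`, `ChnStmt`, `LimStmt`.)

Proof. By CHN every `c ∈ SS` has `g w ∈ c.1`, `h w ∈ c.2`, `dist (g w) (h w) ≤ c₀`; then
`tr g⁻¹ c` has `w` on the first and `g⁻¹ h w` on the second side, at distance `≤ c₀`, so `g⁻¹ h` is in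
a finite set (free action, balls finite): finite union of the sets of LIM. For the first part, if
`v ∈ sep (tr g f)` with `f` in this finite set then `g⁻¹ v ∈ sep f`: finitely many `g`. -/
def LocStmt : Prop := ∀ (A W : Type u) [Group A] [MulAction A W] (G G₀ : SimpleGraph W) (w : W)
  (p : Ultrafilter W), Stg A G G₀ w p → ∀ k : ℕ, Mn A G p k →
  (∀ v : W, {c | c ∈ SS A G p k ∧ v ∈ sep c}.Finite) ∧
  ∃ 𝓕 : Set (Set W × Set W), 𝓕.Finite ∧ ∀ c ∈ SS A G p k, ∃ f ∈ 𝓕, ∃ g : A, c = tr g f

/-- **PTH.** Cuts between two vertices. (May assume `LocStmt`.)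

Proof. A fixed `G₀`-path from `x` to `y` meets `sep c` (no edges between `c.1` and `c.2`). -/
def PthStmt : Prop := ∀ (A W : Type u) [Group A] [MulAction A W] (G G₀ : SimpleGraph W) (w : W)
  (p : Ultrafilter W), Stg A G G₀ w p → ∀ k : ℕ, Mn A G p k → ∀ x y : W,
  {c | c ∈ SS A G p k ∧ x ∉ c.2 ∧ y ∉ c.1}.Finite

/-- **ORA.** Minimal cuts. (May assume `PthStmt`; `corner` is in `Basic`.)

Proof. (1) The cuts `c' ∈ SS` with `p` on the first side and `Lw c' c`: `w ∉ c'.2` by Fact 1, and
`v ∉ c'.1` for a fixed `v ∈ c.2` (nonempty) as `v ∈ c'.2`: finitely many by PTH; take a minimal one.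
(2) Otherwise both corners `(d.1 ∩ e.1, d.2 ∪ e.2)`, `(d.2 ∩ e.2, d.1 ∪ e.1)` distinguish `1`, `g`, so
have size `≥ k`; the sum is `2 k`; so the first is in `SS`, below `d` and `e`, so `d = e`. -/
def OraStmt : Prop := ∀ (A W : Type u) [Group A] [MulAction A W] (G G₀ : SimpleGraph W) (w : W)
  (p : Ultrafilter W), Stg A G G₀ w p → ∀ k : ℕ, Mn A G p k →
  (∀ c ∈ SS A G p k, Inn p (1 : A) c.1 → ∃ d ∈ DD A G p k, Lw d c) ∧
  ∀ d ∈ DD A G p k, ∀ e ∈ DD A G p k, d ≠ e → ∀ g : A, ¬ (Inn p g d.2 ∧ Inn p g e.2)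

/-- **ORB.** (May assume `OraStmt`.)

Proof. (1) `g ∈ BB`: definition with `h = 1`. (2) `g ∉ BB`: some `h`, `c ∈ SS` with
`Inn (h g) c.1 ≠ Inn h c.1`; translate by `h⁻¹` and swap if necessary: `c ∈ SS`, `Inn 1 c.1`,
`Inn g c.2`; take `d ∈ DD` with `Lw d c`. (3) If `SS` is nonempty some cut distinguishes `a`, `b`, so
`a⁻¹ b ∉ BB`. (4) `BB` preserves `DD` (it preserves `SS` and `Inn 1 c.1` for `c ∈ SS`, and `Lw`). -/
def OrbStmt : Prop := ∀ (A W : Type u) [Group A] [MulAction A W] (G G₀ : SimpleGraph W) (w : W)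
  (p : Ultrafilter W), Stg A G G₀ w p → ∀ k : ℕ, Mn A G p k →
  (∀ g ∈ BB A G p k, ∀ d ∈ DD A G p k, Inn p g d.1) ∧
  (∀ g : A, g ∉ BB A G p k → ∃ d ∈ DD A G p k, Inn p g d.2) ∧
  ((SS A G p k).Nonempty → BB A G p k ≠ ⊤) ∧
  ∀ g ∈ BB A G p k, ∀ d ∈ DD A G p k, tr g d ∈ DD A G p k

/-- **ORC.** (May assume `OraStmt`, `OrbStmt`.)

Proof. `d' = tr g d` is in `DD`, and it is minimal among the cuts `c ∈ SS` with `Inn g c.1`. If
`g ∉ BB` take `e ∈ DD` with `Inn g e.2`; `Inn g d'.1`, so `e ≠ d'`. As `d' ∈ SS` there is `h` with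
`Inn h d'.2`; by ORA `Inn h e.1`. The corners `(d'.1 ∩ e.2, d'.2 ∪ e.1)` and `(d'.2 ∩ e.1, d'.1 ∪ e.2)`
distinguish `g`, `h`, both have size `k`, the first one is below `d'` and has `g` on the first side, so
it is `d'`: `d'.1 ⊆ e.2`. But `Inn 1 d'.1`, `Inn 1 e.1`. -/
def OrcStmt : Prop := ∀ (A W : Type u) [Group A] [MulAction A W] (G G₀ : SimpleGraph W) (w : W)
  (p : Ultrafilter W), Stg A G G₀ w p → ∀ k : ℕ, Mn A G p k →
  ∀ (g : A), ∀ d ∈ DD A G p k, tr g d ∈ DD A G p k → g ∈ BB A G p k

/-- **FRD.** The action on `DD`. (May assume `LocStmt`, `OrcStmt`.)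

Proof. (1) From the second part of LOC and ORC: choose for each `f ∈ 𝓕` an element of `DD` of the
form `tr g f`, if there is one. (2) `g` maps `sep d` to itself, which is finite and nonempty (if it is
empty then `d.1`, `d.2` have no edges between them and cover everything, `G₀` is connected, and both
are nonempty); so a power `g ^ n`, `n > 0`, fixes a point, so is `1`. -/
def FrdStmt : Prop := ∀ (A W : Type u) [Group A] [MulAction A W] (G G₀ : SimpleGraph W) (w : W)
  (p : Ultrafilter W), Stg A G G₀ w p → ∀ k : ℕ, Mn A G p k →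
  (∀ (a : A) (n : ℕ), 0 < n → a ^ n = 1 → a = 1) →
  (∃ 𝓕 : Set (Set W × Set W), 𝓕.Finite ∧ 𝓕 ⊆ DD A G p k ∧
    ∀ d ∈ DD A G p k, ∃ f ∈ 𝓕, ∃ g ∈ BB A G p k, d = tr g f) ∧
  ∀ (g : A), ∀ d ∈ DD A G p k, tr g d = d → g = 1

/-- **DER.** Extension of derivations, purely algebraic.

Proof. `B` acts freely on the image of `lam` by `b (lam g) = lam (b g)` (1, 2). Choose a function `C`
on `A` with `C (b g) = f b + b C g` for `b ∈ B`, which depends only on `lam g` (choose representatives
of the orbits). For `g ∈ A` let `E g x = g C (g⁻¹ x)`; `E (g b) x - E g x` does not depend on `x`. Let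
`φ x y = ∑ᶠ over the cosets g B of (E g y - E g x)`, finite sums by (3). `φ x y + φ y z = φ x z`,
`φ (z x) (z y) = z φ x y`. `δ x = φ 1 x` is a derivation. On `B`, by (4), only the coset `B`
contributes: `δ b = C b - C 1 = f b + b C 1 - C 1`. Subtract the derivation `x ↦ x C 1 - C 1`. -/
def DerStmt : Prop := ∀ (A : Type u) [Group A] (B : Subgroup A) (Λ : Type u) (lam : A → Λ),
  (∀ b ∈ B, ∀ g g' : A, lam g = lam g' → lam (b * g) = lam (b * g')) →
  (∀ b ∈ B, ∀ g : A, lam (b * g) = lam g → b = 1) →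
  (∀ x y : A, {q : A ⧸ B | ∃ g : A, (g : A ⧸ B) = q ∧ lam (g⁻¹ * x) ≠ lam (g⁻¹ * y)}.Finite) →
  (∀ b ∈ B, ∀ g : A, g ∉ B → lam (g⁻¹ * b) = lam g⁻¹) →
  ∀ (M : Type u) [AddCommGroup M] [DistribMulAction A M] (f : B → M), IsDerOn B f →
    ∃ δ : A → M, IsDer δ ∧ ∀ b : B, δ b = f b

/-- **DRA.** Extension of derivations of `BB`. (May assume `DerStmt`, `PthStmt`, `OraStmt`,
`OrbStmt`, `OrcStmt`, `FrdStmt`.)

Proof. DER with `Λ = A ⊕ (Set W × Set W)` and `lam g = inl g` for `g ∈ BB`, `lam g = inr d` for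
`g ∉ BB`, with the unique `d ∈ DD` with `Inn g d.2` (ORB, ORA). (1) `lam (b g) = inr (tr b d)`.
(2) FRD. (3) If `lam (g⁻¹ x) ≠ lam (g⁻¹ y)` then `g ∈ x BB` or `g ∈ y BB` or both are in `DD`; with
`d = lam (g⁻¹ x)`: `Inn (g⁻¹ x) d.2`, `Inn (g⁻¹ y) d.1`, so `e = tr g d ∈ SS` has `x w ∉ e.1`,
`y w ∉ e.2`: finitely many `e` (PTH), and `e` determines `g BB` by ORC. (4) By definition of `BB` the
elements `g⁻¹` and `g⁻¹ b` are on the same sides of all cuts in `SS`. -/
def DraStmt : Prop := ∀ (A W : Type u) [Group A] [MulAction A W] (G G₀ : SimpleGraph W) (w : W)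
  (p : Ultrafilter W), Stg A G G₀ w p → ∀ k : ℕ, Mn A G p k →
  (∀ (a : A) (n : ℕ), 0 < n → a ^ n = 1 → a = 1) →
  ∀ (M : Type u) [AddCommGroup M] [DistribMulAction A M] (f : BB A G p k → M),
    IsDerOn (BB A G p k) f → ∃ δ : A → M, IsDer δ ∧ ∀ b : BB A G p k, δ b = f b

/-- **HAL.** Marshall Hall's theorem (weak form).

Proof. `B` is generated by finitely many reduced words; let `Δ` be a finite set of cosets in `F ⧸ B`
containing the base point, all cosets visited by these words, and the coset of some `x ∉ B`, with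
the cosets visited by `x`. Each generator of `F` acts on `Δ` as a partial injection, which extends to a
permutation of `Δ` (`Equiv.extendSubtype` or similar). This is an action of `F` on `Δ` for which `B`
fixes the base point and `x` does not. `L` = stabilizer of the base point. -/
def HalStmt : Prop := ∀ (n : ℕ) (B : Subgroup (FreeGroup (Fin n))), B.FG → B ≠ ⊤ →
  ∃ L : Subgroup (FreeGroup (Fin n)), B ≤ L ∧ L ≠ ⊤ ∧ L.FiniteIndex

/-- **RNK.** The rank drops. (May assume `HalStmt`.)

Proof. `B` is free (Nielsen–Schreier is in Mathlib). The derivations of a free group with basis `X`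
into `M` correspond to the functions `X → M` (semidirect product, or `FreeGroup.lift` to it). With `M`
the trivial module with two elements (in `Type u`): the basis `X` of `B` has at most `m` elements. If
it has `m` elements, then for every finite `M` the restriction from the derivations of `A` to those of
`B` is surjective between finite sets of the same size, so injective. Take `L` by HAL, and
`M = (A ⧸ L → ZMod 2)`: the derivation `g ↦ g v - v`, `v` the indicator of the coset `L`, vanishes on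
`B` but not on `A`. -/
def RnkStmt : Prop := ∀ (m : ℕ) (A : Type u) [Group A], Nonempty (FreeGroup (Fin m) ≃* A) →
  ∀ B : Subgroup A, B ≠ ⊤ →
  (∀ (M : Type u) [AddCommGroup M] [DistribMulAction A M] [Finite M] (f : B → M),
    IsDerOn B f → ∃ δ : A → M, IsDer δ ∧ ∀ b : B, δ b = f b) →
  ∃ n : ℕ, n < m ∧ Nonempty (FreeGroup (Fin n) ≃* B)

/-- **INF.** `BB` is infinite. (May assume `FacStmt`, `OrbStmt`, `FrdStmt`.) Is not needed if the
induction is on the rank: see IND.

**TOA.** The torso has finitely many orbits. (May assume `FacStmt`, `PthStmt`, `OrbStmt`,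
`FrdStmt`.)

Proof. `Kp` is invariant as `BB` preserves `DD`. Let `x ∈ Kp`. If `x` is in a separator `sep d`,
`d ∈ DD`: `d = tr g f`, `g⁻¹ x ∈ sep f`, finite. Otherwise `x ∉ d.2` for all `d ∈ DD`; there is `a`
with `dist (a w) x ≤ R`. If `a ∈ BB`, then `a⁻¹ x` is in the ball of radius `R` around `w`. Otherwise
`Inn a d.2` for some `d ∈ DD`, so `a w ∉ d.1` (Fact 1), `x ∉ d.2`, so the path from `a w` to `x` meets
`sep d`: `x` is within `R` of `sep d`, `d = tr g f`. -/
def ToaStmt : Prop := ∀ (A W : Type u) [Group A] [MulAction A W] (G G₀ : SimpleGraph W) (w : W)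
  (p : Ultrafilter W), Stg A G G₀ w p → ∀ k : ℕ, Mn A G p k →
  (∀ (a : A) (n : ℕ), 0 < n → a ^ n = 1 → a = 1) →
  (∀ g ∈ BB A G p k, ∀ x ∈ Kp A G p k, g • x ∈ Kp A G p k) ∧
  ∃ F : Set W, F.Finite ∧ F ⊆ Kp A G p k ∧
    ∀ x ∈ Kp A G p k, ∃ g ∈ BB A G p k, ∃ f ∈ F, g • f = x

/-- **TOB.** `p` lives on the torso. (May assume `LocStmt`.)

Proof. `w ∉ d.2` for `d ∈ DD` by Fact 1, so `w ∈ Kp`. If a neighbour `x` of `w` is in `d.2` then
`w ∉ d.1`, so `w ∈ sep d`: finitely many `d` (LOC), and `d.2 ∉ p` for each. So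
`{x | G.Adj w x} \ ⋃ d.2` (finite union) is in `p` and contained in `Kp`. -/
def TobStmt : Prop := ∀ (A W : Type u) [Group A] [MulAction A W] (G G₀ : SimpleGraph W) (w : W)
  (p : Ultrafilter W), Stg A G G₀ w p → ∀ k : ℕ, Mn A G p k →
  w ∈ Kp A G p k ∧ Kp A G p k ∈ p

/-- **TOC.** Components outside the torso have finitely many neighbours. (May assume `PthStmt`,
`ToaStmt`, `OrbStmt`, `FrdStmt`.)

Proof. `z ∉ Kp` is in `d.2` for some `d ∈ DD`, and a path outside `Kp` from `z` stays in `d.2`, as it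
avoids `sep d ⊆ Kp`; so the neighbours `y` are in `Kp ∩ (d.2 ∪ sep d)`. `Kp ∩ d.2` is finite: with `F`
from TOA, `g f ∈ d.2`, `g ∈ BB` means `f ∈ (tr g⁻¹ d).2`, `tr g⁻¹ d ∈ DD`, and `w ∉ (tr g⁻¹ d).2`:
finitely many cuts `tr g⁻¹ d` (PTH), and each determines `g` (FRD). -/
def TocStmt : Prop := ∀ (A W : Type u) [Group A] [MulAction A W] (G G₀ : SimpleGraph W) (w : W)
  (p : Ultrafilter W), Stg A G G₀ w p → ∀ k : ℕ, Mn A G p k →
  (∀ (a : A) (n : ℕ), 0 < n → a ^ n = 1 → a = 1) → Nar G (Kp A G p k)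

/-- **TOD.** The torso of the locally finite graph (graph theory).

Proof. Connected: every `G₀`-path between vertices of `K` decomposes at its vertices in `K`. Locally
finite: a neighbour `y` of `x` in the torso is a `G₀`-neighbour of `x`, or there is a `G₀`-neighbour
`q ∉ K` of `x` (finitely many) such that `y` is in the finite set of `Nar` for `q`. (`fromRel` is
symmetrized; the relation is symmetric for `x`, `y` in `K`: reverse the path.) -/
def TodStmt : Prop := ∀ (W : Type u) (G G₀ : SimpleGraph W) (K : Set W), G₀ ≤ G → Nar G K →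
  G₀.Connected → K.Nonempty → (∀ x, {y | G₀.Adj x y}.Finite) →
  TG G₀ K ≤ TG G K ∧ (TG G₀ K).Connected ∧ ∀ x, {y | (TG G₀ K).Adj x y}.Finite

/-- **TOE.** Cuts of `G` give cuts of the torso (graph theory).

Proof. Let `X' = {y ∈ K | y ∈ sep c, or y is a neighbour of a component outside K which meets
sep c}`, finite by `Nar`; `c'.1 = {y ∈ K | y ∈ c.1, y ∉ X'}`, `c'.2` similarly. An edge of the torso
between them would be an edge of `G` or a path of `G` outside `K` whose component does not meet
`sep c`: contradiction. -/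
def ToeStmt : Prop := ∀ (W : Type u) (G : SimpleGraph W) (K : Set W), Nar G K →
  ∀ c, IsCut G c → ∃ c' : Set K × Set K, IsCut (TG G K) c' ∧
    ∃ X : Set W, X.Finite ∧ (∀ y : K, (y : W) ∈ c.1 → (y : W) ∉ X → y ∈ c'.1) ∧
      ∀ y : K, (y : W) ∈ c.2 → (y : W) ∉ X → y ∈ c'.2

/-- The conclusion of the induction: infinitely many elements which are not distinguished. -/
def Con (A : Type u) {W : Type u} [Group A] [MulAction A W] (G : SimpleGraph W)
    (p : Ultrafilter W) : Prop :=
  ∃ Z : Set A, Z.Infinite ∧ ∀ a ∈ Z, ∀ b ∈ Z, ∀ c, IsCut G c → ¬ Dis p c a b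

/-- **TOF.** The torso is a setting, and the conclusion for it gives the conclusion. (May assume
`ToaStmt`, `TobStmt`, `TocStmt`, `TodStmt`, `ToeStmt`.)

Proof. The action of `BB` on `Kp` by restriction; `p'` = the ultrafilter on `Kp` whose image is `p`
(`Ultrafilter.comap` or `Ultrafilter.ofComplNotMemIff`). `Stg`: `nb` as `G`-neighbours in `Kp` are
neighbours in the torso. `Con` transfers: `Z' = image of Z`; a cut of `G` which distinguishes `a`, `b`
in `BB` gives by TOE a cut of the torso, which distinguishes them as `Kp` is in `a p` and finite sets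
are not. -/
def TofStmt : Prop := ∀ (A W : Type u) [Group A] [MulAction A W] (G G₀ : SimpleGraph W) (w : W)
  (p : Ultrafilter W), Stg A G G₀ w p → ∀ k : ℕ, Mn A G p k →
  (∀ (a : A) (n : ℕ), 0 < n → a ^ n = 1 → a = 1) →
  ∃ (W' : Type u) (_ : MulAction (BB A G p k) W') (G' G₀' : SimpleGraph W') (w' : W')
    (p' : Ultrafilter W'), Stg (BB A G p k) G' G₀' w' p' ∧
      (Con (BB A G p k) G' p' → Con A G p)

/-- **IND.** The induction. (May assume `DraStmt`, `RnkStmt`, `TofStmt`, `FacStmt`.)

Proof. Strong induction on `m`. `W` is infinite (`p` is nonprincipal), so `A` is infinite (finitely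
many orbits). If no cut distinguishes two elements, `Z = univ`. Otherwise let `k` be the minimum of the
sizes; `SS` is nonempty, `BB ≠ ⊤` (ORB), free groups are torsion-free, DRA and RNK: `BB` is free of
smaller rank; TOF. (May assume `OrbStmt` too.) -/
def IndStmt : Prop := ∀ (m : ℕ) (A W : Type u) [Group A] [MulAction A W] (G G₀ : SimpleGraph W)
  (w : W) (p : Ultrafilter W), Nonempty (FreeGroup (Fin m) ≃* A) → Stg A G G₀ w p → Con A G p

/-- **KND.** A complete minor from infinitely many vertices which are not separated.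

Proof. Choose finite stages as in `Pool.Agent.Helper52.Wqo.Uni` (`Ok`, `Ok.update`, `Ok.step`):
disjoint finite connected sets `β 0, β 1, ...`, each (nonempty one) containing one vertex `y i` of
`Y`; enlarge `β i` by the interior of a path from `y i` to `y j` which avoids all the other vertices
used so far (they are finitely many, and do not separate `y i` from `y j`; cut the path so that it goes
from `β i` to `β j`). In the limit all pairs are adjacent. -/
def KndStmt : Prop := ∀ (W : Type u) (G : SimpleGraph W) (Y : Set W), Y.Infinite →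
  (∀ x ∈ Y, ∀ y ∈ Y, ∀ c, IsCut G c → ¬ (x ∈ c.1 ∧ y ∈ c.2)) →
  ∃ φ : ℕ → Set W, (∀ i, (G.induce (φ i)).Connected) ∧
    (∀ i j, i ≠ j → Disjoint (φ i) (φ j)) ∧
    ∀ i j, i ≠ j → ∃ a ∈ φ i, ∃ b ∈ φ j, G.Adj a b

/-- **APP.** Virtually free groups. (May assume `IndStmt`, `KndStmt`.)

Proof. `A` is finitely generated (finite index in a finitely generated group) and free, so is
isomorphic to `FreeGroup (Fin m)`. `W = Γ`, `A` acts by left multiplication, `G = cay S`,
`G₀ = cay S₀` for a finite symmetric `S₀ ⊆ S` which generates `Γ`, `w = 1`, `p` a nonprincipal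
ultrafilter containing `S`. `Con` gives `Y = Z w`, and Fact 1 the hypothesis of KND. Here the
universe of `V` is arbitrary. -/
def AppStmt : Prop := ∀ (Γ : Type u) [Group Γ], Group.FG Γ →
  (∃ A : Subgroup Γ, A.FiniteIndex ∧ IsFreeGroup A) → ∀ S : Set Γ,
  Subgroup.closure S = ⊤ → (∀ s ∈ S, s⁻¹ ∈ S) → (1 : Γ) ∉ S → S.Infinite →
  ∃ φ : ℕ → Set Γ,
    (∀ i, ((SimpleGraph.fromRel fun a b : Γ => a⁻¹ * b ∈ S).induce (φ i)).Connected) ∧
    (∀ i j, i ≠ j → Disjoint (φ i) (φ j)) ∧
    ∀ i j, i ≠ j → ∃ a ∈ φ i, ∃ b ∈ φ j,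
      (SimpleGraph.fromRel fun a b : Γ => a⁻¹ * b ∈ S).Adj a b

end Pool.Agent.Helper27.VF
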