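import Pool.Agent.Helper28.VF.Plane

/-! Packet LOWER: the octahedron has no vertex-face walk visiting everything exactly once. -/

namespace Pool.Agent.Helper27.VF

open Helper28.VF

/-- The octahedron. -/
def oct : SimpleGraph (Fin 6) where
  Adj i j := i ≠ j ∧ (i : ℕ) + j ≠ 5
  symm := ⟨fun i j h => ⟨h.1.symm, by rw [add_comm]; exact h.2⟩⟩
  loopless := ⟨fun i h => h.1 rfl⟩

instance : DecidableRel oct.Adj := fun i j => inferInstanceAs (Decidable (i ≠ j ∧ (i : ℕ) + j ≠ 5))

/-- next neighbour -/
def nx (u v : Fin 6) : Fin 6 :=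
  (![![0, 2, 4, 1, 3, 0], ![3, 0, 0, 5, 0, 2], ![1, 5, 0, 0, 0, 4],
    ![4, 0, 0, 0, 5, 1], ![2, 0, 5, 0, 0, 3], ![0, 3, 1, 4, 2, 0]] : Fin 6 → Fin 6 → Fin 6) u v

/-- previous neighbour -/
def pv (u v : Fin 6) : Fin 6 := nx u (nx u (nx u v))

theorem nx_adj : ∀ u v, oct.Adj u v → oct.Adj u (nx u v) := by decide

theorem pv_adj (u v : Fin 6) (h : oct.Adj u v) : oct.Adj u (pv u v) :=
  nx_adj _ _ (nx_adj _ _ (nx_adj _ _ h))

theorem pv_nx : ∀ u v, oct.Adj u v → pv u (nx u v) = v := by decide

theorem nx_pv : ∀ u v, oct.Adj u v → nx u (pv u v) = v := by decide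

theorem nx_cyc : ∀ u v w, oct.Adj u v → oct.Adj u w →
    w = v ∨ w = nx u v ∨ w = nx u (nx u v) ∨ w = nx u (nx u (nx u v)) := by decide

theorem dart_ext {d e : oct.Dart} (h1 : d.fst = e.fst) (h2 : d.snd = e.snd) : d = e := by
  apply SimpleGraph.Dart.ext
  exact Prod.ext h1 h2

/-- The rotation. -/
def octRot : Equiv.Perm oct.Dart where
  toFun d := ⟨(d.fst, nx d.fst d.snd), nx_adj _ _ d.adj⟩
  invFun d := ⟨(d.fst, pv d.fst d.snd), pv_adj _ _ d.adj⟩
  left_inv d := dart_ext rfl (pv_nx _ _ d.adj)
  right_inv d := dart_ext rfl (nx_pv _ _ d.adj)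

/-- The rotation system. -/
def octR : Rotation oct where
  rot := octRot
  fst_rot d := rfl
  cyclic d e h := by
    rcases nx_cyc d.fst d.snd e.snd d.adj (h ▸ e.adj) with h1 | h1 | h1 | h1
    · exact ⟨0, dart_ext h h1.symm⟩
    · exact ⟨1, dart_ext h h1.symm⟩
    · exact ⟨2, dart_ext h h1.symm⟩
    · exact ⟨3, dart_ext h h1.symm⟩

theorem next_fst (d : oct.Dart) : (octR.next d).fst = d.snd := rfl

theorem next_snd (d : oct.Dart) : (octR.next d).snd = nx d.snd d.fst := rfl

/-- the index of the face -/
def fi (u v : Fin 6) : Fin 8 :=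
  (if u = 5 ∨ v = 5 ∨ nx v u = 5 then 4 else 0) + (if u = 4 ∨ v = 4 ∨ nx v u = 4 then 2 else 0) +
    (if u = 3 ∨ v = 3 ∨ nx v u = 3 then 1 else 0)

theorem fi_next : ∀ u v, oct.Adj u v → fi v (nx v u) = fi u v := by decide

/-- boolean form of the adjacency -/
def adjB (u v : Fin 6) : Bool := decide (oct.Adj u v)

/-- boolean test -/
def fiB (u v u' v' : Fin 6) : Bool :=
  !(adjB u v) || (!(adjB u' v') || (!(decide (fi u v = fi u' v')) ||
    ((decide (u' = u) && decide (v' = v)) || ((decide (u' = v) && decide (v' = nx v u)) ||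
      (decide (u' = nx v u) && decide (v' = nx (nx v u) v))))))

theorem fiB_all : ∀ u v u' v', fiB u v u' v' = true := by decide +kernel

theorem fi_inj (u v u' v' : Fin 6) (h1 : oct.Adj u v) (h2 : oct.Adj u' v')
    (h3 : fi u v = fi u' v') :
    (u' = u ∧ v' = v) ∨ (u' = v ∧ v' = nx v u) ∨ (u' = nx v u ∧ v' = nx (nx v u) v) := by
  have h := fiB_all u v u' v'
  unfold fiB adjB at h
  simp only [h1, h2, h3, decide_true, Bool.not_true, Bool.false_or, Bool.or_eq_true,
    Bool.and_eq_true, decide_eq_true_eq] at h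
  exact h

theorem fi_surj : ∀ i : Fin 8, ∃ u v, oct.Adj u v ∧ fi u v = i := by decide

/-- the index of the face of a dart -/
def fd (d : oct.Dart) : Fin 8 := fi d.fst d.snd

theorem fd_next (d : oct.Dart) : fd (octR.next d) = fd d := fi_next _ _ d.adj

theorem fd_pow (n : ℕ) (d : oct.Dart) : fd ((octR.next ^ n) d) = fd d := by
  induction n with
  | zero => rfl
  | succ n ih => rw [pow_succ', Equiv.Perm.mul_apply, fd_next, ih]

theorem fd_of_sameCycle {d e : oct.Dart} (h : octR.next.SameCycle d e) : fd d = fd e := by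
  obtain ⟨i, rfl⟩ := h
  cases i with
  | ofNat n => exact (fd_pow n d).symm
  | negSucc n =>
    rw [zpow_negSucc]
    have h := fd_pow (n + 1) ((octR.next ^ (n + 1))⁻¹ d)
    rwa [← Equiv.Perm.mul_apply, mul_inv_cancel, Equiv.Perm.one_apply] at h

theorem sameCycle_of_fd {d e : oct.Dart} (h : fd d = fd e) : octR.next.SameCycle d e := by
  rcases fi_inj _ _ _ _ d.adj e.adj h with h1 | h1 | h1
  · exact ⟨0, dart_ext h1.1.symm h1.2.symm⟩
  · exact ⟨1, dart_ext h1.1.symm h1.2.symm⟩
  · exact ⟨2, dart_ext h1.1.symm h1.2.symm⟩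

/-- the index of a face -/
def ff : octR.Face → Fin 8 := Quotient.lift fd fun _ _ h => fd_of_sameCycle h

theorem ff_bij : Function.Bijective ff := by
  constructor
  · intro a b
    induction a using Quotient.inductionOn
    induction b using Quotient.inductionOn
    intro h
    exact Quotient.sound (sameCycle_of_fd h)
  · intro i
    obtain ⟨u, v, h, hi⟩ := fi_surj i
    exact ⟨Quotient.mk _ ⟨(u, v), h⟩, hi⟩

theorem card_face : Nat.card octR.Face = 8 := by
  rw [Nat.card_congr (Equiv.ofBijective ff ff_bij)]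
  simp

theorem card_edge : Nat.card oct.edgeSet = 12 := by
  rw [Nat.card_eq_fintype_card]
  decide +kernel

theorem planar : octR.Planar := by
  unfold Rotation.Planar
  rw [card_face, card_edge]
  simp

theorem conn_dec : ∀ S : Finset (Fin 6), S.card ≤ 2 → ∀ u v, u ∉ S → v ∉ S →
    u = v ∨ oct.Adj u v ∨ ∃ w, w ∉ S ∧ oct.Adj u w ∧ oct.Adj w v := by
  decide +kernel

theorem nonempty_dec : ∀ S : Finset (Fin 6), S.card ≤ 2 → ∃ u, u ∉ S := by
  decide +kernel

theorem three : ThreeConnected oct := by
  refine ⟨by simp, fun S hS => ?_⟩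
  have hne : Nonempty ((S : Set (Fin 6))ᶜ : Set (Fin 6)) := by
    obtain ⟨u, hu⟩ := nonempty_dec S hS
    exact ⟨⟨u, by simpa using hu⟩⟩
  refine ⟨?_⟩
  rintro ⟨u, hu⟩ ⟨v, hv⟩
  have hu' : u ∉ S := by simpa using hu
  have hv' : v ∉ S := by simpa using hv
  rcases conn_dec S hS u v hu' hv' with h | h | ⟨w, hw, h1, h2⟩
  · subst h
    exact SimpleGraph.Reachable.refl _
  · exact SimpleGraph.Adj.reachable (G := oct.induce ((S : Set (Fin 6))ᶜ)) h
  · have hw' : w ∈ ((S : Set (Fin 6))ᶜ : Set (Fin 6)) := by simpa using hw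
    have e1 : (oct.induce ((S : Set (Fin 6))ᶜ)).Adj ⟨u, hu⟩ ⟨w, hw'⟩ := h1
    have e2 : (oct.induce ((S : Set (Fin 6))ᶜ)).Adj ⟨w, hw'⟩ ⟨v, hv⟩ := h2
    exact e1.reachable.trans e2.reachable

theorem alt {F : Type} {r : Fin 6 ⊕ F → Fin 6 ⊕ F → Prop}
    (hr : ∀ x y, r x y → x.isLeft ≠ y.isLeft) :
    ∀ (l : List (Fin 6 ⊕ F)), l.IsChain r → ∀ x, l.head? = some x →
      (x.isLeft = true → l.countP (fun y => y.isLeft) = l.countP (fun y => !y.isLeft) ∨
        l.countP (fun y => y.isLeft) = l.countP (fun y => !y.isLeft) + 1) ∧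
      (x.isLeft = false → l.countP (fun y => !y.isLeft) = l.countP (fun y => y.isLeft) ∨
        l.countP (fun y => !y.isLeft) = l.countP (fun y => y.isLeft) + 1) := by
  intro l
  induction l with
  | nil => intro _ x hx; simp at hx
  | cons a t ih =>
    intro hc x hx
    have hax : a = x := by simpa using hx
    subst hax
    cases t with
    | nil =>
      constructor
      · intro h; right; simp [h]
      · intro h; right; simp [h]
    | cons b t =>
      rw [List.isChain_cons_cons] at hc
      have h1 := ih hc.2 b rfl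
      have h2 := hr a b hc.1
      constructor
      · intro h
        have hb : b.isLeft = false := by
          rw [h] at h2
          cases hb : b.isLeft
          · rfl
          · exact absurd hb.symm h2
        have h3 := h1.2 hb
        rw [List.countP_cons (a := a), List.countP_cons (a := a)]
        simp only [h]
        simp only [if_true, Bool.not_true, Bool.false_eq_true, if_false]
        omega
      · intro h
        have hb : b.isLeft = true := by
          rw [h] at h2
          cases hb : b.isLeft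
          · exact absurd hb.symm h2
          · rfl
        have h3 := h1.1 hb
        rw [List.countP_cons (a := a), List.countP_cons (a := a)]
        simp only [h]
        simp only [if_true, Bool.not_false, Bool.false_eq_true, if_false]
        omega

theorem noWalk_aux [BEq (Fin 6 ⊕ octR.Face)] [LawfulBEq (Fin 6 ⊕ octR.Face)]
    (w : List (Fin 6 ⊕ octR.Face)) (hcount : ∀ x, w.count x = 1) (hc : w.IsChain octR.Inc) :
    False := by
  have : Finite octR.Face := Nat.finite_of_card_ne_zero (by rw [card_face]; norm_num)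
  have : Fintype octR.Face := Fintype.ofFinite _
  have hnd : w.Nodup := List.nodup_iff_count_le_one.2 fun x => (hcount x).le
  have hmem : ∀ x, x ∈ w := fun x => List.count_pos_iff.1 (by rw [hcount]; norm_num)
  classical
  have hlen : w.length = 14 := by
    rw [← List.toFinset_card_of_nodup hnd]
    have : w.toFinset = Finset.univ := by
      ext x; simp [hmem]
    rw [this, Finset.card_univ, Fintype.card_sum, ← Nat.card_eq_fintype_card (α := octR.Face),
      card_face]
    simp
  have hleft : w.countP (fun y => y.isLeft) ≤ 6 := by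
    have h1 : w.countP (fun y => y.isLeft) = (w.filter (fun y => y.isLeft)).toFinset.card := by
      rw [List.toFinset_card_of_nodup (hnd.filter _), List.countP_eq_length_filter]
    rw [h1]
    have h2 : (w.filter (fun y => y.isLeft)).toFinset ⊆
        (Finset.univ : Finset (Fin 6)).image (Sum.inl : Fin 6 → Fin 6 ⊕ octR.Face) := by
      intro x hx
      rw [List.mem_toFinset, List.mem_filter] at hx
      obtain ⟨-, hx⟩ := hx
      cases x with
      | inl v => exact Finset.mem_image_of_mem _ (Finset.mem_univ v)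
      | inr f => simp at hx
    exact (Finset.card_le_card h2).trans (Finset.card_image_le.trans (by simp))
  have hsum : w.countP (fun y => y.isLeft) + w.countP (fun y => !y.isLeft) = 14 := by
    rw [← hlen, List.length_eq_countP_add_countP (fun y => y.isLeft)]
    congr 1
    apply List.countP_congr
    intro x _
    simp
  have hne : w ≠ [] := by
    rintro rfl
    simp at hlen
  obtain ⟨x, t, rfl⟩ := List.exists_cons_of_ne_nil hne
  have h := alt (r := octR.Inc) (by
    rintro (a | a) (b | b) h
    · exact h.elim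
    · simp
    · simp
    · exact h.elim) _ hc x rfl
  cases hx : x.isLeft
  · have := h.2 hx
    omega
  · have := h.1 hx
    omega

theorem noWalk : ¬ ∃ w, octR.CoveringWalk 1 w := by
  rintro ⟨w, hc, hw⟩
  have hw' := fun x => le_antisymm (hw x).2 (hw x).1
  refine @noWalk_aux (@instBEqOfDecidableEq _ fun a b => Classical.propDecidable (a = b))
    (@instLawfulBEq _ fun a b => Classical.propDecidable (a = b)) w ?_ hc
  intro x
  exact hw' x

theorem stmtLower : StmtLower := ⟨oct, octR, three, planar, noWalk⟩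

end Pool.Agent.Helper27.VF
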